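import Pool.Agent.H.MP_d1b776_ag.C

namespace Pool.Agent.Results.MP_d1b776_ag.Vamos

open Polynomial Pool.Agent.H.MP_d1b776_ag

theorem result (A : Type) [Ring A] [StarRing A] [Algebra ℂ A] [StarModule ℂ A] (z : Fin 8 → A)
    (hz : ∀ i, star (z i) = z i) (hgen : Algebra.adjoin ℂ (Set.range z) = ⊤)
    (h1 : ∑ i, z i = 1)
    (hrel : ∀ a : Fin 8 → ℝ, aeval (∑ i, (a i : ℂ) • z i)
      (MvPolynomial.aeval (fun i => C (a i : ℂ) - X) vamos) = 0) :
    ∃ (m : ℕ) (b : Fin m → A), -1 = ∑ i, star (b i) * b i := by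
  have h : ∀ (a : Fin 8 → ℝ) (T : A), T = ∑ i, a i • z i → (65 : ℝ) • T ^ 4 - c3 a • T ^ 3 +
      c2 a • T ^ 2 - c1 a • T + c0 a • (1 : A) = 0 := by
    intro a T hT
    have e := hrel a
    have v : MvPolynomial.aeval (fun i => C (a i : ℂ) - X) vamos =
        ∑ B ∈ bases, ∏ i ∈ B, (C (a i : ℂ) - X) := by simp [vamos]
    simp only [Complex.coe_smul, ← hT] at e
    rw [v, H.MP_d1b776_ag.expand] at e
    have q : ∀ r : ℝ, aeval T (C (r : ℂ)) = r • (1 : A) := fun r => by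
      rw [aeval_C, Algebra.algebraMap_eq_smul_one, Complex.coe_smul]
    have c : (c3 fun i => C (a i : ℂ)) = C ((c3 a : ℝ) : ℂ) ∧
        (c2 fun i => C (a i : ℂ)) = C ((c2 a : ℝ) : ℂ) ∧
        (c1 fun i => C (a i : ℂ)) = C ((c1 a : ℝ) : ℂ) ∧
        (c0 fun i => C (a i : ℂ)) = C ((c0 a : ℝ) : ℂ) ∧
        (65 : ℂ[X]) = C ((65 : ℝ) : ℂ) := by
      simp [c3, c2, c1, c0, map_ofNat]
    simpa only [c, map_add, map_sub, map_mul, map_pow, q, aeval_X, smul_mul_assoc, one_mul]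
      using e
  have hb : ∀ x : A, ∃ c, 0 ≤ c ∧ Le x c := by
    intro x
    have hx : x ∈ Algebra.adjoin ℂ (Set.range z) := hgen ▸ trivial
    induction hx using Algebra.adjoin_induction with
    | mem x hx =>
      obtain ⟨i, rfl⟩ := hx
      have a := h (Pi.single i 1) (z i) (by simp [Pi.single_apply])
      have b : c2 (Pi.single i (1 : ℝ)) = 0 ∧ c1 (Pi.single i (1 : ℝ)) = 0 ∧
          c0 (Pi.single i (1 : ℝ)) = 0 := by
        fin_cases i <;> simp [c2, c1, c0]
      rw [b.1, b.2.1, b.2.2] at a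
      obtain ⟨c, hc⟩ := Le.of_alg (z i) (hz i) (lam i) (by
        linear_combination (norm := (simp only [lam]; module)) (1 / 65 : ℝ) • a)
      exact ⟨max c 0, le_max_right _ _, hc.mono (le_max_left _ _)⟩
    | algebraMap r =>
      refine ⟨Complex.normSq r, Complex.normSq_nonneg r, ?_⟩
      rw [Le, ← algebraMap_star_comm, ← map_mul, Algebra.algebraMap_eq_smul_one,
        ← Complex.coe_smul, Complex.normSq_eq_conj_mul_self]
      simp
    | add x y _ _ a b =>
      obtain ⟨c, c0, a⟩ := a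
      obtain ⟨d, d0, b⟩ := b
      exact ⟨_, by positivity, a.add b⟩
    | mul x y _ _ a b =>
      obtain ⟨c, c0, a⟩ := a
      obtain ⟨d, d0, b⟩ := b
      exact ⟨_, by positivity, a.mul b c0⟩
  have m := main (fun x => (hb x).imp fun _ h => h.2) z hz h h1
  generalize (-1 : A) = x at m
  induction m using AddSubmonoid.closure_induction with
  | mem x hx =>
    obtain ⟨b, rfl⟩ := hx
    exact ⟨1, fun _ => b, by simp⟩
  | zero => exact ⟨0, Fin.elim0, by simp⟩
  | add x y _ _ a b =>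
    obtain ⟨m, a, rfl⟩ := a
    obtain ⟨n, b, rfl⟩ := b
    exact ⟨m + n, Fin.append a b, by simp [Fin.sum_univ_add]⟩

end Pool.Agent.Results.MP_d1b776_ag.Vamos
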